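import Pool.Agent.N408.IB.Stm

/-!
# Project IB, leaf LIM: the functional equation in the form of an average
-/

set_option autoImplicit false

open Real Set MeasureTheory Filter
open IB408

namespace N403.IB.LIM

theorem t (h1 : S_L1) : IB408.S_LIM := by
  intro h hP hE ψ hψ0 hψπ
  obtain ⟨hc, -, -, hb, -⟩ := hP
  have hL : Continuous (Leg h) :=
    (h1 h hc (fun ψ => (hb ψ).trans (by norm_num))).2.2.1
  have hf : Continuous fun t => Leg h (arccos t) ^ 3 := (hL.comp continuous_arccos).pow 3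
  have hcont : Continuous fun ψ => (h ψ + h (π - ψ)) / 2 *
      (2 * π / 3 * ∫ s in (-1 : ℝ)..1, Leg h (arccos (sin ψ * s)) ^ 3) := by
    have h2 : Continuous fun ψ => ∫ s in (-1 : ℝ)..1, Leg h (arccos (sin ψ * s)) ^ 3 := by
      refine intervalIntegral.continuous_parametric_intervalIntegral_of_continuous' ?_ _ _
      exact hf.comp ((continuous_sin.comp continuous_fst).mul continuous_snd)
    exact ((hc.add (hc.comp (continuous_const.sub continuous_id))).div_const 2).mul
      (continuous_const.mul h2)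
  have hcl : IsClosed {ψ : ℝ | (h ψ + h (π - ψ)) / 2 *
      (2 * π / 3 * ∫ s in (-1 : ℝ)..1, Leg h (arccos (sin ψ * s)) ^ 3) = 4 * π / 3} :=
    isClosed_eq hcont continuous_const
  have hsub : Ioo 0 π ⊆ {ψ : ℝ | (h ψ + h (π - ψ)) / 2 *
      (2 * π / 3 * ∫ s in (-1 : ℝ)..1, Leg h (arccos (sin ψ * s)) ^ 3) = 4 * π / 3} := by
    intro φ hφ
    obtain ⟨x, hx⟩ : ∃ x, x = sin φ := ⟨_, rfl⟩
    have hx0 : 0 < x := by rw [hx]; exact sin_pos_of_pos_of_lt_pi hφ.1 hφ.2
    have h3 := hE φ hφ.1 hφ.2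
    rw [← hx] at h3
    have hn : Continuous fun t => Leg h (arccos (-t)) ^ 3 := hf.comp continuous_neg
    have e1 : (∫ t in (0 : ℝ)..x, (Leg h (arccos t) ^ 3 + Leg h (π - arccos t) ^ 3) / 2) =
        ((∫ t in (0 : ℝ)..x, Leg h (arccos t) ^ 3) +
          ∫ t in (0 : ℝ)..x, Leg h (arccos (-t)) ^ 3) / 2 := by
      rw [intervalIntegral.integral_div, ← intervalIntegral.integral_add
        (hf.intervalIntegrable _ _) (hn.intervalIntegrable _ _)]
      simp only [arccos_neg]
    have e2 : (∫ s in (-1 : ℝ)..1, Leg h (arccos (x * s)) ^ 3) =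
        x⁻¹ * ((∫ t in (0 : ℝ)..x, Leg h (arccos t) ^ 3) +
          ∫ t in (0 : ℝ)..x, Leg h (arccos (-t)) ^ 3) := by
      have e3 := intervalIntegral.integral_comp_mul_left (a := -1) (b := 1)
        (fun t => Leg h (arccos t) ^ 3) hx0.ne'
      have e4 := intervalIntegral.integral_comp_neg (a := 0) (b := x)
        (fun t => Leg h (arccos t) ^ 3)
      rw [e3, e4, neg_zero, smul_eq_mul, mul_one, mul_neg_one, add_comm,
        intervalIntegral.integral_add_adjacent_intervals
        (hf.intervalIntegrable _ _) (hf.intervalIntegrable _ _)]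
    simp only [mem_ofPred_eq]
    rw [← hx, e2]
    rw [e1] at h3
    have h4 : x⁻¹ * x = 1 := inv_mul_cancel₀ hx0.ne'
    linear_combination (4 * π / 3 * x⁻¹) * h3 + 4 * π / 3 * h4
  have h5 := hcl.closure_subset_iff.2 hsub
  rw [closure_Ioo Real.pi_pos.ne] at h5
  exact h5 ⟨hψ0, hψπ⟩

end N403.IB.LIM
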